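import Pool.Agent.Q2N.Stmts

set_option autoImplicit false

open Module

namespace Pool.Agent.Q2N.H56

open Pool.Agent.UW Pool.Agent.Q2N

theorem powFg {F D : Type} [Field F] [DivisionRing D] [Algebra F D] (V : Submodule F D)
    (h : FiniteDimensional F ↥V) (n : ℕ) : FiniteDimensional F ↥(V ^ n) := by
  have h1 : V.FG := Module.Finite.iff_fg.1 h
  exact Module.Finite.iff_fg.2 (h1.pow n)

theorem ore : Pool.Agent.Q2N.OreStmt := by
  intro F D _ _ _ A d hG a ha b hb ha0 hb0
  by_contra hcon
  have hz : ∀ c ∈ A, ∀ e ∈ A, a * c = b * e → c = 0 := by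
    intro c hc e he h
    by_contra h0
    exact hcon ⟨c, hc, e, he, h0, h⟩
  set W : Submodule F D := Submodule.span F ({a, b} : Set D) with hW
  set V : Submodule F D := Submodule.span F ({1, a, b} : Set D) with hV
  have hWV : W ≤ V := Submodule.span_mono (by
    intro x hx
    exact Or.inr hx)
  have hVA : V ≤ Subalgebra.toSubmodule A := by
    rw [hV, Submodule.span_le]
    intro x hx
    rcases hx with rfl | rfl | rfl
    · exact A.one_mem
    · exact ha
    · exact hb
  have hVf : FiniteDimensional F ↥V := by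
    have h1 : V.FG := Submodule.fg_span (Set.toFinite _)
    exact Module.Finite.iff_fg.2 h1
  have hV1 : (1 : Submodule F D) ≤ V := by
    rw [Submodule.one_le]
    exact Submodule.subset_span (Or.inl rfl)
  have hWf : FiniteDimensional F ↥W := by
    have h1 : W.FG := Submodule.fg_span (Set.toFinite _)
    exact Module.Finite.iff_fg.2 h1
  have hWA : ∀ n : ℕ, ∀ x ∈ W ^ n, x ∈ A := by
    intro n
    induction n with
    | zero =>
      intro x hx
      rw [pow_zero, Submodule.mem_one] at hx
      obtain ⟨c, rfl⟩ := hx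
      exact A.algebraMap_mem c
    | succ n ih =>
      intro x hx
      rw [pow_succ] at hx
      refine Submodule.mul_induction_on hx ?_ ?_
      · intro m hm k hk
        exact A.mul_mem (ih m hm) (hVA (hWV hk))
      · intro p q hp hq
        exact A.add_mem hp hq
  have hdim : ∀ n : ℕ, 2 ^ n ≤ finrank F ↥(W ^ n) := by
    intro n
    induction n with
    | zero =>
      rw [pow_zero, pow_zero]
      have h1 : Nontrivial ↥(1 : Submodule F D) := by
        rw [Submodule.nontrivial_iff_ne_bot]
        intro h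
        have h2 : (1 : D) ∈ (1 : Submodule F D) := Submodule.one_le.1 le_rfl
        rw [h, Submodule.mem_bot] at h2
        exact one_ne_zero h2
      have h3 : FiniteDimensional F ↥(1 : Submodule F D) := by
        have h4 := powFg W hWf 0
        rwa [pow_zero] at h4
      exact Module.finrank_pos
    | succ n ih =>
      have hfn := powFg W hWf n
      have hfn1 := powFg W hWf (n + 1)
      have hai : Function.Injective (LinearMap.mulLeft F a) := by
        intro x y hxy
        exact mul_left_cancel₀ ha0 hxy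
      have hbi : Function.Injective (LinearMap.mulLeft F b) := by
        intro x y hxy
        exact mul_left_cancel₀ hb0 hxy
      have h1 : finrank F ↥((W ^ n).map (LinearMap.mulLeft F a)) = finrank F ↥(W ^ n) :=
        (LinearEquiv.finrank_eq (Submodule.equivMapOfInjective _ hai (W ^ n))).symm
      have h2 : finrank F ↥((W ^ n).map (LinearMap.mulLeft F b)) = finrank F ↥(W ^ n) :=
        (LinearEquiv.finrank_eq (Submodule.equivMapOfInjective _ hbi (W ^ n))).symm
      have h3 : (W ^ n).map (LinearMap.mulLeft F a) ⊓ (W ^ n).map (LinearMap.mulLeft F b) = ⊥ := by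
        rw [eq_bot_iff]
        rintro x ⟨⟨c, hc, hcx⟩, ⟨e, he, hex⟩⟩
        have h4 : a * c = b * e := hcx.trans hex.symm
        have h5 := hz c (hWA n c hc) e (hWA n e he) h4
        rw [Submodule.mem_bot, ← hcx, h5, map_zero]
      have h4 := Submodule.finrank_sup_add_finrank_inf_eq
        ((W ^ n).map (LinearMap.mulLeft F a)) ((W ^ n).map (LinearMap.mulLeft F b))
      rw [h3, finrank_bot, h1, h2, add_zero] at h4
      have h5 : (W ^ n).map (LinearMap.mulLeft F a) ⊔ (W ^ n).map (LinearMap.mulLeft F b) ≤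
          W ^ (n + 1) := by
        rw [pow_succ', sup_le_iff]
        constructor
        · rintro x ⟨c, hc, rfl⟩
          exact Submodule.mul_mem_mul (Submodule.subset_span (Or.inl rfl)) hc
        · rintro x ⟨c, hc, rfl⟩
          exact Submodule.mul_mem_mul (Submodule.subset_span (Or.inr rfl)) hc
      have h6 := Submodule.finrank_mono h5
      rw [h4] at h6
      calc 2 ^ (n + 1) = 2 ^ n + 2 ^ n := by ring
        _ ≤ finrank F ↥(W ^ n) + finrank F ↥(W ^ n) := Nat.add_le_add ih ih
        _ ≤ _ := h6
  have hev := hG V hVA hVf hV1 1 one_pos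
  have hV2 : ∀ n : ℕ, 2 ^ n ≤ finrank F ↥(V ^ n) := by
    intro n
    have hfn := powFg V hVf n
    exact (hdim n).trans (Submodule.finrank_mono (pow_le_pow_left' hWV n))
  have hlim : Filter.Tendsto (fun n : ℕ => (n : ℝ) ^ (d + 1) * Real.exp (-(Real.log 2) * n))
      Filter.atTop (nhds 0) :=
    (tendsto_rpow_mul_exp_neg_mul_atTop_nhds_zero (d + 1) (Real.log 2)
      (Real.log_pos (by norm_num))).comp tendsto_natCast_atTop_atTop
  have hev2 : ∀ᶠ n : ℕ in Filter.atTop, (n : ℝ) ^ (d + 1) * Real.exp (-(Real.log 2) * n) < 1 :=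
    hlim.eventually (gt_mem_nhds one_pos)
  obtain ⟨n, hn1, hn2⟩ := (hev.and hev2).exists
  have h7 : ((2 : ℝ)) ^ n ≤ (n : ℝ) ^ (d + 1) := by
    refine le_trans ?_ hn1
    exact_mod_cast hV2 n
  have h8 : Real.exp (-(Real.log 2) * n) * 2 ^ n = 1 := by
    have h9 : (2 : ℝ) ^ n = Real.exp (Real.log 2 * n) := by
      rw [mul_comm, Real.exp_nat_mul, Real.exp_log two_pos]
    rw [h9, ← Real.exp_add]
    rw [show -Real.log 2 * (n : ℝ) + Real.log 2 * n = 0 by ring, Real.exp_zero]
  have h10 : (1 : ℝ) ≤ (n : ℝ) ^ (d + 1) * Real.exp (-(Real.log 2) * n) := by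
    have h11 := mul_le_mul_of_nonneg_right h7 (Real.exp_pos (-(Real.log 2) * n)).le
    linarith
  linarith

end Pool.Agent.Q2N.H56
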